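import Mathlib
import Pool.Agent.R43.WCSSearch

/-!
Every weakly consecutive sequence begins or ends with the entry `1` (Q1 of MP_537c9d_co).
-/

namespace Pool.Agent.Results.MP_537c9d_co.TermOneAtEnd

/-- `σ` is a permutation of `{1,...,k}` such that `m ∣ σ i` and `m ∣ i - j` imply `m ∣ σ j`, for
all `m, i, j` in `{1,...,k}`. -/
def IsWCS (k : ℕ) (σ : ℕ → ℕ) : Prop :=
  Set.BijOn σ (Set.Icc 1 k) (Set.Icc 1 k) ∧
  ∀ m ∈ Set.Icc 1 k, ∀ i ∈ Set.Icc 1 k, ∀ j ∈ Set.Icc 1 k,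
    m ∣ σ i → (m : ℤ) ∣ (i : ℤ) - (j : ℤ) → m ∣ σ j

/-- Every weakly consecutive sequence of length `k ≥ 1` begins or ends with `1`. -/
theorem result (k : ℕ) (hk : 1 ≤ k) (σ : ℕ → ℕ) (h : IsWCS k σ) : σ 1 = 1 ∨ σ k = 1 := by
  have h' : R43WCS.IsWCS k σ := by
    refine ⟨h.1, ?_⟩
    intro i hi j hj m hm hd hij
    have h1 := Set.mem_Icc.1 (h.1.mapsTo hi)
    have h2 : m ≤ σ i := Nat.le_of_dvd (by omega) hd
    exact h.2 m (Set.mem_Icc.2 ⟨hm, by omega⟩) i hi j hj hd hij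
  exact R43WCS.end_prop hk h'

end Pool.Agent.Results.MP_537c9d_co.TermOneAtEnd
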